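import Pool.Agent.Results.MP_ec260d_nt.AlgebraicRelations
import Pool.Agent.V35.WP

/-!
# Relations `γ' = f γ + a` between ordinates of zeros of zeta, for ALL real `a` near `α T`, for almost every `α`

Unconditionally: let `B` be a set of at least `η T log T` ordinates of zeros on the critical line, up to `K T`. For almost
every real `α` the following holds along every sequence `T = v_n` of small exponent of convergence (for example `b ^ n`,
or `(n + 1) ^ A` with `A > 500`): for ALL real numbers `a` at distance at most `T ^ ρ` from `α T` (in particular for all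
ordinates in this window) and for all of up to `T ^ σ` functions `f` at once, which are only assumed to be bi-Lipschitz on
`B` (for instance `f γ = x γ`, or `f γ = (x γ ^ k + y) ^ (1 / k)`), the point `1/2 + i (f γ + a)` has distance at least
`c / log T` from ALL zeros for a positive proportion of the `γ` in `B`. Here `σ + τ + ρ < 1 / 500`, `τ` is the exponent of
convergence, and the exceptional set of the `α` has Hausdorff dimension at most `(499 / 500 + σ + τ) / (1 - ρ)`. The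
starting theorem `AlgebraicRelations` says that few `a` in a discrete set are exceptional, but nothing about given `a`.
-/

set_option autoImplicit false

open Complex MeasureTheory Filter Topology

namespace Pool.Agent.Results.MP_ec260d_nt.AlmostEveryShift

open Pool.Agent.V35.WM Pool.Agent.V35.WN Pool.Agent.V35.WP

/-- the `γ ∈ B` such that all zeros of zeta have distance at least `δ` from `1/2 + i (f γ + a)` -/
def away (B : Finset ℝ) (f : ℝ → ℝ) (a δ : ℝ) : Set ℝ :=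
  {γ : ℝ | γ ∈ B ∧ ∀ z : ℂ, riemannZeta z = 0 → δ ≤ ‖z - (1 / 2 + I * ((f γ + a : ℝ) : ℂ))‖}

/-- **Theorem.** Let `K` and `η > 0` be real numbers. There is `c > 0` such that the following holds. Let `v n ≥ 1` be a
sequence of exponent of convergence at most `τ ≥ 0`, let `σ ≥ 0` and `0 ≤ ρ < 1`, let `B n` be sets of at least
`η v_n log v_n` positive ordinates of zeros on the critical line, up to `K v_n`, and let `Φ n` be sets of at most
`(v_n) ^ σ` functions, bounded by `K v_n` and bi-Lipschitz on `B n` with constant `K`. There is a set `E` of Hausdorff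
dimension at most `(499 / 500 + σ + τ) / (1 - ρ)`, a null set if `σ + τ + ρ < 1 / 500`, such that for all `α` outside `E`,
`|α| ≤ K`, and all large `n`: for ALL real `a` with `|a - v_n α| ≤ (v_n) ^ ρ` and all `f ∈ Φ n`, for at least
`c |B n|` of the `γ ∈ B n` all the zeros of zeta have distance at least `c / log v_n` from `1/2 + i (f γ + a)`. The
exponent of convergence of `b ^ n`, `b > 1`, is `0`, that of `(n + 1) ^ A` is at most `1 / A`. -/
theorem result (K η : ℝ) (hη : 0 < η) : ∃ c : ℝ, 0 < c ∧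
    (∀ (v : ℕ → ℝ) (τ σ ρ : ℝ), (∀ n, 1 ≤ v n) → 0 ≤ τ → ExpLe v τ → 0 ≤ σ → 0 ≤ ρ → ρ < 1 →
      ∀ B : ℕ → Finset ℝ,
      (∀ n, ∀ γ ∈ B n, 0 < γ ∧ γ ≤ K * v n ∧ riemannZeta (1 / 2 + I * (γ : ℂ)) = 0) →
      (∀ n, η * v n * Real.log (v n) ≤ (B n).card) →
      ∀ Φ : ℕ → Finset (ℝ → ℝ), (∀ n, ((Φ n).card : ℝ) ≤ (v n) ^ σ) →
      (∀ n, ∀ f ∈ Φ n, ∀ γ ∈ B n, |f γ| ≤ K * v n) →
      (∀ n, ∀ f ∈ Φ n, ∀ γ ∈ B n, ∀ γ' ∈ B n, |γ - γ'| ≤ K * |f γ - f γ'| ∧ |f γ - f γ'| ≤ K * |γ - γ'|) →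
      ∃ E : Set ℝ, dimH E ≤ ENNReal.ofReal ((499 / 500 + σ + τ) / (1 - ρ)) ∧
        (σ + τ + ρ < 1 / 500 → volume E = 0) ∧
        ∀ α : ℝ, |α| ≤ K → α ∉ E → ∃ n₀ : ℕ, ∀ n : ℕ, n₀ ≤ n → ∀ a : ℝ, |a - v n * α| ≤ (v n) ^ ρ → ∀ f ∈ Φ n,
          c * (B n).card ≤ ((away (B n) f a (c / Real.log (v n))).ncard : ℝ)) ∧
    (∀ b : ℝ, 1 < b → ExpLe (fun n : ℕ => b ^ n) 0) ∧
    (∀ A : ℝ, 0 < A → ExpLe (fun n : ℕ => ((n : ℝ) + 1) ^ A) (1 / A)) := by
  classical
  obtain ⟨K', hK'⟩ : ∃ K' : ℝ, K' = |K| + 1 := ⟨_, rfl⟩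
  have hKK' : K ≤ K' := by rw [hK']; linarith [le_abs_self K]
  have hK'0 : 0 ≤ K' := by rw [hK']; positivity
  obtain ⟨c, T₁, hc, hmain⟩ := AlgebraicRelations.result K' η hη
  refine ⟨c, hc, ?_, fun b hb => expLe_geom b hb, fun A hA => expLe_pow A hA⟩
  intro v τ σ ρ hv hτ hE hσ hρ0 hρ1 B hB hBc Φ hΦ hΦb hΦl
  have hv0 : ∀ n, 0 < v n := fun n => lt_of_lt_of_le one_pos (hv n)
  have hvt := tendsto_of_expLe hv0 hτ hE
  -- the exceptional integers
  set bad : ℕ → (ℝ → ℝ) → ℝ → Prop := fun n f a =>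
    |a| ≤ K' * v n ∧ ((away (B n) f a (c / Real.log (v n))).ncard : ℝ) < c * (B n).card with hbad
  set Z : ℕ → (ℝ → ℝ) → Finset ℤ := fun n f =>
    (Finset.Icc (-(⌈K' * v n⌉₊ + 1 : ℤ)) (⌈K' * v n⌉₊ + 1 : ℤ)).filter
      (fun m : ℤ => ∃ a : ℝ, (m : ℝ) ≤ a ∧ a < m + 1 ∧ bad n f a) with hZ
  set F : ℕ → Finset ℝ := fun n => if T₁ ≤ v n then
    ((Φ n).biUnion (Z n)).image (fun m : ℤ => (m : ℝ) / v n) else ∅ with hF
  have hZcard : ∀ n, T₁ ≤ v n → ∀ f ∈ Φ n, ((Z n f).card : ℝ) ≤ 2 * (v n) ^ (499 / 500 : ℝ) := by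
    intro n hn f hf
    have hex : ∀ m ∈ Z n f, ∃ a : ℝ, (m : ℝ) ≤ a ∧ a < m + 1 ∧ bad n f a := fun m hm => (Finset.mem_filter.1 hm).2
    choose! g hg using hex
    have h1 := hmain (v n) hn (B n)
      (fun γ hγ => ⟨(hB n γ hγ).1, (hB n γ hγ).2.1.trans (mul_le_mul_of_nonneg_right hKK' (hv0 n).le), (hB n γ hγ).2.2⟩)
      (hBc n) f (fun γ hγ => (hΦb n f hf γ hγ).trans (mul_le_mul_of_nonneg_right hKK' (hv0 n).le))
      (fun γ hγ γ' hγ' => ⟨((hΦl n f hf γ hγ γ' hγ').1).trans (mul_le_mul_of_nonneg_right hKK' (abs_nonneg _)),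
        ((hΦl n f hf γ hγ γ' hγ').2).trans (mul_le_mul_of_nonneg_right hKK' (abs_nonneg _))⟩)
      ℤ (Z n f) g 2 (fun m hm => (hg m hm).2.2.1) (fun y => by
        have hsub : {m : ℤ | m ∈ Z n f ∧ y ≤ g m ∧ g m < y + 1} ⊆ (({⌊y⌋, ⌊y⌋ + 1} : Finset ℤ) : Set ℤ) := by
          rintro m ⟨hm, h2, h3⟩
          obtain ⟨h4, h5, -⟩ := hg m hm
          have h6 : y < m + 1 := lt_of_le_of_lt h2 h5
          have h7 : (m : ℝ) < y + 1 := lt_of_le_of_lt h4 h3
          have h8 : ⌊y⌋ < m + 1 := by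
            have := Int.floor_le y
            exact_mod_cast lt_of_le_of_lt this h6
          have h9 : m < ⌊y⌋ + 2 := by
            have := Int.lt_floor_add_one y
            have h10 : (m : ℝ) < ⌊y⌋ + 2 := by linarith
            exact_mod_cast h10
          rw [Finset.coe_insert, Finset.coe_singleton, Set.mem_insert_iff, Set.mem_singleton_iff]
          omega
        have h2 := Set.ncard_le_ncard hsub (Finset.finite_toSet _)
        rw [Set.ncard_coe_finset] at h2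
        have h3 := h2.trans (Finset.card_le_two)
        exact_mod_cast h3)
    refine le_trans ?_ h1
    have hset : {a : ℤ | a ∈ Z n f ∧ ({γ : ℝ | γ ∈ B n ∧ ∀ ρ : ℂ, riemannZeta ρ = 0 →
        c / Real.log (v n) ≤ ‖ρ - (1 / 2 + I * ((f γ + g a : ℝ) : ℂ))‖}.ncard : ℝ) <
      c * (B n).card} = ((Z n f : Finset ℤ) : Set ℤ) := by
      ext m
      rw [Set.mem_ofPred_eq, Finset.mem_coe]
      exact ⟨fun h => h.1, fun h => ⟨h, (hg m h).2.2.2⟩⟩
    rw [hset, Set.ncard_coe_finset]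
  have hFcard : ∀ n, ((F n).card : ℝ) ≤ 2 * (v n) ^ (499 / 500 + σ) := by
    intro n
    by_cases hn : T₁ ≤ v n
    · have h1 : (F n).card ≤ ∑ f ∈ Φ n, (Z n f).card := by
        rw [hF]
        simp only [if_pos hn]
        exact Finset.card_image_le.trans Finset.card_biUnion_le
      calc ((F n).card : ℝ) ≤ ∑ f ∈ Φ n, ((Z n f).card : ℝ) := by exact_mod_cast h1
        _ ≤ ∑ _f ∈ Φ n, 2 * (v n) ^ (499 / 500 : ℝ) := Finset.sum_le_sum fun f hf => hZcard n hn f hf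
        _ = ((Φ n).card : ℝ) * (2 * (v n) ^ (499 / 500 : ℝ)) := by rw [Finset.sum_const, nsmul_eq_mul]
        _ ≤ (v n) ^ σ * (2 * (v n) ^ (499 / 500 : ℝ)) := by
            have := hv0 n
            exact mul_le_mul_of_nonneg_right (hΦ n) (by positivity)
        _ = 2 * (v n) ^ (499 / 500 + σ) := by
            rw [Real.rpow_add (hv0 n)]
            ring
    · rw [hF]
      simp only [if_neg hn, Finset.card_empty, Nat.cast_zero]
      have := hv0 n
      positivity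
  have hdim := dim_often_pow F hv hτ hE (s := 499 / 500 + σ) (ρ := ρ) (K := 2) (by linarith) hρ1 two_pos hFcard
  refine ⟨Often F (fun n => 2 * (v n) ^ (ρ - 1)), hdim, fun hlt => null_real hdim ?_, fun α hαK hαE => ?_⟩
  · rw [div_lt_one (by linarith)]
    linarith
  have hα'' : ∃ n1 : ℕ, ∀ n : ℕ, n1 ≤ n → ∀ x ∈ F n, 2 * (v n) ^ (ρ - 1) < |x - α| := by
    by_contra hcon
    apply hαE
    intro n1
    push Not at hcon
    obtain ⟨n, h1, x, h2, h3⟩ := hcon n1
    exact ⟨n, h1, x, h2, h3⟩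
  obtain ⟨n1, hn1⟩ := hα''
  obtain ⟨n2, hn2⟩ := eventually_atTop.1 (hvt.eventually_ge_atTop T₁)
  refine ⟨max n1 n2, fun n hn a ha f hf => ?_⟩
  have h1 := hn1 n ((le_max_left _ _).trans hn)
  have h2 := hn2 n ((le_max_right _ _).trans hn)
  by_contra hcon
  push Not at hcon
  have hvn := hv0 n
  have hvρ1 : (1 : ℝ) ≤ (v n) ^ ρ := Real.one_le_rpow (hv n) hρ0
  have hvρ2 : (v n) ^ ρ ≤ v n := by
    calc (v n) ^ ρ ≤ (v n) ^ (1 : ℝ) := Real.rpow_le_rpow_of_exponent_le (hv n) hρ1.le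
      _ = v n := Real.rpow_one _
  have haK : |a| ≤ K' * v n := by
    have h3 : |a| ≤ |a - v n * α| + |v n * α| := by
      have := abs_add_le (a - v n * α) (v n * α)
      rwa [sub_add_cancel] at this
    rw [abs_mul, abs_of_pos hvn] at h3
    have h4 : v n * |α| ≤ v n * |K| := mul_le_mul_of_nonneg_left (hαK.trans (le_abs_self K)) hvn.le
    rw [hK']
    linarith
  have hm1 : ((⌊a⌋ : ℤ) : ℝ) ≤ a := Int.floor_le a
  have hm2 : a < ((⌊a⌋ : ℤ) : ℝ) + 1 := Int.lt_floor_add_one a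
  have hmem : ((⌊a⌋ : ℤ) : ℝ) / v n ∈ F n := by
    rw [hF]
    simp only [if_pos h2]
    rw [Finset.mem_image]
    refine ⟨⌊a⌋, ?_, rfl⟩
    rw [Finset.mem_biUnion]
    refine ⟨f, hf, ?_⟩
    rw [hZ]
    simp only [Finset.mem_filter, Finset.mem_Icc]
    have h5 := abs_le.1 haK
    have h6 := Nat.le_ceil (K' * v n)
    refine ⟨⟨?_, ?_⟩, a, hm1, hm2, haK, hcon⟩
    · have : (-(⌈K' * v n⌉₊ + 1 : ℝ)) < ((⌊a⌋ : ℤ) : ℝ) := by linarith
      have h7 : (((-(⌈K' * v n⌉₊ + 1 : ℤ)) : ℤ) : ℝ) < ((⌊a⌋ : ℤ) : ℝ) := by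
        push_cast
        linarith
      exact (Int.cast_lt.1 h7).le
    · have h7 : ((⌊a⌋ : ℤ) : ℝ) ≤ (((⌈K' * v n⌉₊ + 1 : ℤ) : ℤ) : ℝ) := by
        push_cast
        linarith
      exact Int.cast_le.1 h7
  have h8 := h1 _ hmem
  have h9 : |((⌊a⌋ : ℤ) : ℝ) / v n - α| ≤ 2 * (v n) ^ (ρ - 1) := by
    have h10 : ((⌊a⌋ : ℤ) : ℝ) / v n - α = (((⌊a⌋ : ℤ) : ℝ) - v n * α) / v n := by
      field_simp
    rw [h10, abs_div, abs_of_pos hvn, div_le_iff₀ hvn]
    have h11 : 2 * (v n) ^ (ρ - 1) * v n = 2 * (v n) ^ ρ := by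
      rw [Real.rpow_sub_one hvn.ne']
      field_simp
    rw [h11]
    have h12 := abs_le.1 ha
    rw [abs_le]
    constructor <;> linarith
  exact absurd h8 (not_lt.2 h9)

end Pool.Agent.Results.MP_ec260d_nt.AlmostEveryShift
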