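import Pool.Agent.V1173.UR.Poly

/-!
# Polynomial relations between consecutive ordinates, with no hypothesis on the zeros

Let `0 < γ_1 ≤ γ_2 ≤ …` be the ordinates of the nontrivial zeros of `ζ`, with multiplicity. For every
`k` there is `ε > 0` such that, unconditionally, for every real polynomial `P` of degree at most
`m ≥ 1` in `k` variables, the gradient `g` of whose part of degree `m` at `(1, …, 1)` is not zero, a
proportion at least `ε` of the `n ≤ N` satisfies
`|P(γ_n, …, γ_{n+k-1})| ≥ (ε / m) |g_i| γ_n ^ (m-1) / log γ_n`, for all large `N`. The constant `ε`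
does not depend on `P` or on its degree, and the bound is uniform over all `P` with coefficients at
most `|g_i| N ^ θ`, `θ < 1`; so `P` may vary with `N`.

Idea of the proof. Near the diagonal `P` is a linear form in the ordinates up to a small relative
error, as the span of `k` consecutive ordinates is at most `1` for almost all `n`. For linear forms
the statement was in the starting files under the Riemann hypothesis (`Pool.Agent.Y743.LR`); it is
proved here without it: the moments of gaps used there are replaced by the uniform integrability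
of the gaps, which follows from the number variance (unconditional, Selberg's method, starting
files `TH850.UV`), and the contradiction comes from the central limit theorem for the number of
ordinates in windows of a large bounded number of mean spacings (unconditional, `Y743.CL`).
-/

set_option autoImplicit false

open Filter

namespace Pool.Agent.Results.MP_ec260d_nt.ConsecutivePolynomials

/-- multiplicity of `s` as a zero of the Riemann zeta function (order of vanishing at `s`) -/
noncomputable def zmult (s : ℂ) : ℕ := analyticOrderNatAt riemannZeta s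

/-- the number of nontrivial zeros of `ζ` with ordinate in `(0, t]`, with multiplicity -/
noncomputable def NZ (t : ℝ) : ℕ :=
  ∑ᶠ s ∈ {s : ℂ | riemannZeta s = 0 ∧ 0 < s.re ∧ s.re < 1 ∧ 0 < s.im ∧ s.im ≤ t}, zmult s

/-- for `n ≥ 1`: the `n`-th positive ordinate `γ n` of a nontrivial zero of `ζ`, the ordinates being
listed in nondecreasing order and repeated according to multiplicity -/
noncomputable def γ (n : ℕ) : ℝ := sInf {t : ℝ | n ≤ NZ t}

/-- the `j`-th partial derivative at `(1, …, 1)` of the homogeneous part of degree `m` of `P` -/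
noncomputable def grad {k : ℕ} (m : ℕ) (P : MvPolynomial (Fin k) ℝ) (j : Fin k) : ℝ :=
  MvPolynomial.eval (fun _ => 1) (MvPolynomial.pderiv j (MvPolynomial.homogeneousComponent m P))

/-- the number of the `n ≤ N` with `γ_n ≥ 3` and
`|P(γ_n, …, γ_{n+k-1})| ≥ (ε / m) |grad_i| γ_n ^ (m-1) / log γ_n` -/
noncomputable def count {k : ℕ} (m : ℕ) (P : MvPolynomial (Fin k) ℝ) (i : Fin k) (ε : ℝ) (N : ℕ) :
    ℕ :=
  {n : ℕ | 1 ≤ n ∧ n ≤ N ∧ 3 ≤ γ n ∧ ε / m * |grad m P i| * γ n ^ (m - 1) / Real.log (γ n) ≤
    |MvPolynomial.eval (fun j : Fin k => γ (n + j)) P|}.ncard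

/-- **Theorem.** For every `k` there is `ε > 0` such that for all `m ≥ 1`:

* for every real polynomial `P` of degree at most `m` in `k` variables and every `i` with
  `grad_i ≠ 0` one has `count ≥ ε N` for all large `N`;
* for every `θ < 1`, for all large `N`, the same holds for ALL real polynomials `P` of degree at most
  `m` and all `i` with `grad_i ≠ 0` such that the coefficients of `P` are at most `|grad_i| N ^ θ`. -/
theorem result (k : ℕ) : ∃ ε : ℝ, 0 < ε ∧ ∀ m : ℕ, 1 ≤ m →
    (∀ P : MvPolynomial (Fin k) ℝ, P.totalDegree ≤ m → ∀ i : Fin k, grad m P i ≠ 0 →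
      ∀ᶠ N : ℕ in atTop, ε * N ≤ count m P i ε N) ∧
    ∀ θ : ℝ, θ < 1 → ∀ᶠ N : ℕ in atTop, ∀ P : MvPolynomial (Fin k) ℝ, P.totalDegree ≤ m →
      ∀ i : Fin k, grad m P i ≠ 0 →
      (∀ s, |MvPolynomial.coeff s P| ≤ |grad m P i| * (N : ℝ) ^ θ) →
      ε * N ≤ count m P i ε N := by
  obtain ⟨ε, hε, h⟩ := Pool.Agent.V1173.UR.polyU k
  refine ⟨ε, hε, fun m hm => ⟨fun P hP i hi => ?_, fun θ hθ => h m hm θ hθ⟩⟩
  have hA : 0 < |grad m P i| := abs_pos.mpr hi
  obtain ⟨B, hB⟩ : ∃ B : ℝ, ∀ s, |MvPolynomial.coeff s P| ≤ B := by
    refine ⟨∑ s ∈ P.support, |MvPolynomial.coeff s P|, fun s => ?_⟩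
    by_cases hs : s ∈ P.support
    · exact Finset.single_le_sum (f := fun s => |MvPolynomial.coeff s P|)
        (fun s _ => abs_nonneg _) hs
    · rw [MvPolynomial.notMem_support_iff.mp hs, abs_zero]
      exact Finset.sum_nonneg fun s _ => abs_nonneg _
  have ht : Tendsto (fun N : ℕ => |grad m P i| * (N : ℝ) ^ (1 / 2 : ℝ)) atTop atTop :=
    ((tendsto_rpow_atTop (by norm_num : (0 : ℝ) < 1 / 2)).comp
      tendsto_natCast_atTop_atTop).const_mul_atTop hA
  filter_upwards [h m hm (1 / 2) (by norm_num), ht.eventually_ge_atTop B] with N hN hNB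
  exact hN P hP i hi fun s => (hB s).trans hNB

end Pool.Agent.Results.MP_ec260d_nt.ConsecutivePolynomials
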